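import Pool.Agent.N728.QU.AllLT

set_option autoImplicit false

/-!
# `λ(n² + d) = -1` for infinitely many `n`, for almost all `d` of the form `c - h²`

For every integer `c ≠ 0`, `|c| ≤ K H²`, all but at most `ε H` of the numbers `d = c - h²`, `h ≤ H`, have the following
properties: there are infinitely many `n` with `λ(n² + d) = -1`, and `|∑_{m ≤ M} λ(m² + d)| ≤ ε H` for all `M ≤ K H`.

Proof. The second property is proved in `Agent/N728/QL`, `Agent/N728/QG`, `Agent/N728/QU`: `m² - h² = u (u + 2 h)` with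
`u = m - h`, so the question is one about the polynomials `u² + 2 h u + c` with variable linear coefficient, for which
bilinear sums over `u v + c` with an arbitrary bounded function of `v - u` are estimated, uniformly in `c`, by an
exchange of divisors between `u` and `v`, and by the theorem of Bombieri and Vinogradov for `λ`. It gives one `n` with
`n² + d > 0` and `λ(n² + d) = -1`, and the identity `(n² + d) ((n + 1)² + d) = (n² + n + d)² + d` gives infinitely many.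
-/

namespace Pool.Agent.Results.MP_192724_nt.ThinSequences

open Finset

/-- The Liouville function of `|n|`; its value at `0` is `0`. -/
noncomputable def liouville (n : ℤ) : ℝ := if n = 0 then 0 else (-1) ^ (ArithmeticFunction.cardFactors n.natAbs)

/-- The conclusion for one `d`: there are infinitely many `n` for which `n² + d` is positive and has an odd number of prime
factors, and the sums of the Liouville function of `m² + d` over `m ≤ M`, `M ≤ K H`, are at most `ε H`. -/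
def Good (K : ℕ) (ε : ℝ) (H : ℕ) (d : ℤ) : Prop :=
  (∀ N : ℕ, ∃ n : ℕ, N ≤ n ∧ 0 < (n : ℤ) ^ 2 + d ∧ liouville ((n : ℤ) ^ 2 + d) = -1) ∧
    ∀ M : ℕ, M ≤ K * H → |∑ m ∈ Icc 1 M, liouville ((m : ℤ) ^ 2 + d)| ≤ ε * H

open Classical in
/-- The number of the integers `1 ≤ h ≤ H` for which the conclusion fails for `d = c - h²`. -/
noncomputable def exceptions (K : ℕ) (ε : ℝ) (c : ℤ) (H : ℕ) : ℕ :=
  ((Icc 1 H).filter (fun h : ℕ => ¬ Good K ε H (c - (h : ℤ) ^ 2))).card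

lemma liouville_mul (x y : ℤ) (hx : x ≠ 0) (hy : y ≠ 0) : liouville (x * y) = liouville x * liouville y := by
  unfold liouville
  rw [if_neg hx, if_neg hy, if_neg (mul_ne_zero hx hy), Int.natAbs_mul,
    ArithmeticFunction.cardFactors_mul (Int.natAbs_ne_zero.2 hx) (Int.natAbs_ne_zero.2 hy), pow_add]

lemma liouville_cases (x : ℤ) (hx : x ≠ 0) : liouville x = 1 ∨ liouville x = -1 := by
  unfold liouville
  rw [if_neg hx]
  exact neg_one_pow_eq_or ℝ _

/-- From one `n` to a larger one: `(n² + d) ((n + 1)² + d) = (n² + n + d)² + d`. -/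
lemma step (d : ℤ) (n : ℕ) (h1 : 0 < (n : ℤ) ^ 2 + d) (h2 : liouville ((n : ℤ) ^ 2 + d) = -1) :
    ∃ n' : ℕ, n < n' ∧ 0 < (n' : ℤ) ^ 2 + d ∧ liouville ((n' : ℤ) ^ 2 + d) = -1 := by
  have h3 : 0 < ((n + 1 : ℕ) : ℤ) ^ 2 + d := by
    push_cast
    have : (0 : ℤ) ≤ n := Int.natCast_nonneg n
    nlinarith
  rcases liouville_cases _ h3.ne' with h4 | h4
  · obtain ⟨w, hw⟩ : ∃ w : ℕ, (w : ℤ) = (n : ℤ) ^ 2 + d + n := ⟨((n : ℤ) ^ 2 + d + n).toNat, by
      rw [Int.toNat_of_nonneg]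
      have : (0 : ℤ) ≤ n := Int.natCast_nonneg n
      omega⟩
    have h5 : (w : ℤ) ^ 2 + d = ((n : ℤ) ^ 2 + d) * (((n + 1 : ℕ) : ℤ) ^ 2 + d) := by
      rw [hw]
      push_cast
      ring
    refine ⟨w, ?_, ?_, ?_⟩
    · have : (n : ℤ) < w := by rw [hw]; omega
      exact_mod_cast this
    · rw [h5]; positivity
    · rw [h5, liouville_mul _ _ h1.ne' h3.ne', h2, h4]
      norm_num
  · exact ⟨n + 1, Nat.lt_succ_self n, h3, h4⟩

lemma infinitely (d : ℤ) (n : ℕ) (h1 : 0 < (n : ℤ) ^ 2 + d) (h2 : liouville ((n : ℤ) ^ 2 + d) = -1) (N : ℕ) :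
    ∃ n' : ℕ, N ≤ n' ∧ 0 < (n' : ℤ) ^ 2 + d ∧ liouville ((n' : ℤ) ^ 2 + d) = -1 := by
  induction N with
  | zero => exact ⟨n, Nat.zero_le n, h1, h2⟩
  | succ N ih =>
    obtain ⟨m, m1, m2, m3⟩ := ih
    obtain ⟨m', k1, k2, k3⟩ := step d m m2 m3
    exact ⟨m', by omega, k2, k3⟩

/-- **Theorem.** -/
theorem result (ε : ℝ) (hε : 0 < ε) (K : ℕ) : ∃ H₀ : ℕ, ∀ H : ℕ, H₀ ≤ H → ∀ c : ℤ, c ≠ 0 →
    c.natAbs ≤ K * H ^ 2 → (exceptions K ε c H : ℝ) ≤ ε * H := by
  classical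
  obtain ⟨η, hη⟩ : ∃ η : ℝ, η = min ε (1 / 2) := ⟨_, rfl⟩
  have hη0 : 0 < η := by rw [hη]; positivity
  have hη1 : η ≤ ε := by rw [hη]; exact min_le_left _ _
  have hη2 : η ≤ 1 / 2 := by rw [hη]; exact min_le_right _ _
  obtain ⟨H₀, hF⟩ := Pool.Agent.N728.QU.finalLT 1 0 le_rfl η (K + 3) hη0
  refine ⟨max H₀ 1, fun H hH c hc hcK => ?_⟩
  have hH0 : H₀ ≤ H := (le_max_left _ _).trans hH
  have hH1 : 1 ≤ H := (le_max_right _ _).trans hH
  have hHr : (1 : ℝ) ≤ H := by exact_mod_cast hH1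
  have h4 := hF H hH0 c hc (hcK.trans (Nat.mul_le_mul_right _ (Nat.le_add_right K 3)))
  refine le_trans ?_ (h4.trans (mul_le_mul_of_nonneg_right hη1 (by positivity)))
  unfold exceptions
  rw [Nat.cast_le]
  apply card_le_card
  intro h hh
  rw [mem_filter] at hh ⊢
  refine ⟨hh.1, ?_⟩
  by_contra hcon
  push Not at hcon
  apply hh.2
  have hhH : h ≤ H := (mem_Icc.1 hh.1).2
  have e0 : ∀ m : ℕ, Pool.Agent.N728.QG.lam (Pool.Agent.N728.QU.Vg 1 0 1 c h m) =
      liouville ((m : ℤ) ^ 2 + (c - (h : ℤ) ^ 2)) := by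
    intro m
    have e1 : Pool.Agent.N728.QU.Vg 1 0 1 c h m = (m : ℤ) ^ 2 + (c - (h : ℤ) ^ 2) := by
      unfold Pool.Agent.N728.QU.Vg
      ring
    rw [e1]
    rfl
  simp only [e0] at hcon
  refine ⟨?_, fun M hM => (hcon M (hM.trans (Nat.mul_le_mul_right _ (Nat.le_add_right K 3)))).trans
    (mul_le_mul_of_nonneg_right hη1 (by positivity))⟩
  -- positivity beyond `(K + 1) H`
  have hpos : ∀ m : ℕ, (K + 1) * H < m → 0 < (m : ℤ) ^ 2 + (c - (h : ℤ) ^ 2) := by
    intro m hm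
    have e1 : (h : ℤ) ^ 2 ≤ (H : ℤ) ^ 2 := by
      have : (h : ℤ) ≤ H := by exact_mod_cast hhH
      nlinarith [Int.natCast_nonneg h]
    have e2 : -((K : ℤ) * (H : ℤ) ^ 2) ≤ c := by
      have h1 : (c.natAbs : ℤ) ≤ (K : ℤ) * (H : ℤ) ^ 2 := by exact_mod_cast hcK
      omega
    have e3 : ((K : ℤ) + 1) * H + 1 ≤ m := by exact_mod_cast hm
    have e4 : (0 : ℤ) ≤ K := Int.natCast_nonneg K
    have e5 : (1 : ℤ) ≤ H := by exact_mod_cast hH1
    have e6 : ((K : ℤ) + 1) ^ 2 * (H : ℤ) ^ 2 < (m : ℤ) ^ 2 := by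
      have : (0 : ℤ) ≤ ((K : ℤ) + 1) * H := by positivity
      nlinarith
    have e7 : (K : ℤ) * (H : ℤ) ^ 2 + (H : ℤ) ^ 2 ≤ ((K : ℤ) + 1) ^ 2 * (H : ℤ) ^ 2 := by
      have : (0 : ℤ) ≤ (H : ℤ) ^ 2 := by positivity
      nlinarith [mul_nonneg (mul_nonneg e4 e4) this, mul_nonneg e4 this]
    linarith
  -- one `m` with the value `-1`
  by_contra hno
  push Not at hno
  obtain ⟨N, hN⟩ := hno
  have hall : ∀ m : ℕ, (K + 1) * H < m → liouville ((m : ℤ) ^ 2 + (c - (h : ℤ) ^ 2)) = 1 := by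
    intro m hm
    rcases liouville_cases _ (hpos m hm).ne' with h5 | h5
    · exact h5
    · exfalso
      obtain ⟨n', n1, n2, n3⟩ := infinitely _ m (hpos m hm) h5 N
      exact hN n' n1 n2 n3
  have a1 := hcon ((K + 1) * H) (Nat.mul_le_mul_right _ (by omega))
  have a2 := hcon ((K + 3) * H) le_rfl
  have a3 : Icc 1 ((K + 3) * H) = Icc 1 ((K + 1) * H) ∪ Ioc ((K + 1) * H) ((K + 3) * H) := by
    have : (K + 1) * H ≤ (K + 3) * H := Nat.mul_le_mul_right _ (by omega)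
    ext t
    simp only [mem_Icc, mem_union, mem_Ioc]
    omega
  have a4 : Disjoint (Icc 1 ((K + 1) * H)) (Ioc ((K + 1) * H) ((K + 3) * H)) := by
    rw [disjoint_left]
    intro t h1 h2
    rw [mem_Icc] at h1
    rw [mem_Ioc] at h2
    omega
  have a5 : ∑ m ∈ Ioc ((K + 1) * H) ((K + 3) * H), liouville ((m : ℤ) ^ 2 + (c - (h : ℤ) ^ 2)) = 2 * H := by
    rw [sum_congr rfl (fun m hm => hall m (mem_Ioc.1 hm).1), sum_const, Nat.card_Ioc, nsmul_eq_mul, mul_one]
    have : (K + 3) * H - (K + 1) * H = 2 * H := by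
      rw [← Nat.sub_mul]
      congr 1
      omega
    rw [this]
    push_cast
    ring
  rw [a3, sum_union a4, a5] at a2
  have b1 := abs_le.1 a1
  have b2 := abs_le.1 a2
  have b3 : η * (H : ℝ) ≤ 1 / 2 * H := mul_le_mul_of_nonneg_right hη2 (by positivity)
  linarith [b1.1, b2.2]

end Pool.Agent.Results.MP_192724_nt.ThinSequences
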